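import Mathlib

set_option autoImplicit false

namespace Pool.Agent.Results.MP_03e4a4_nt.PrimeBound

/-- The times `j / m` with `m ≤ 2 (n + 1)`: a speed set without a lonely time has an element
congruent to `0` or `± u` modulo `m`, where `u` is the inverse of `j` modulo `m`. -/
lemma key {n : ℕ} {V : Finset ℕ}
    (H : ∀ t : ℝ, ∃ v ∈ V, ∃ k : ℤ, |t * (v : ℝ) - (k : ℝ)| < 1 / ((n : ℝ) + 1))
    (m : ℕ) (hm : 0 < m) (hm2 : m ≤ 2 * (n + 1)) (j u : ℤ) (hju : (m : ℤ) ∣ j * u - 1) :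
    ∃ v ∈ V, (m : ℤ) ∣ (v : ℤ) ∨ (m : ℤ) ∣ (v : ℤ) - u ∨ (m : ℤ) ∣ (v : ℤ) + u := by
  obtain ⟨v, hv, k, hk⟩ := H ((j : ℝ) / (m : ℝ))
  refine ⟨v, hv, ?_⟩
  have hmR : (0 : ℝ) < (m : ℝ) := by exact_mod_cast hm
  have hnR : (0 : ℝ) < (n : ℝ) + 1 := by positivity
  have hm2R : (m : ℝ) ≤ 2 * ((n : ℝ) + 1) := by exact_mod_cast hm2
  have h1 : |((j * v - k * m : ℤ) : ℝ)| < 2 := by
    have e : ((j * v - k * m : ℤ) : ℝ) = (m : ℝ) * ((j : ℝ) / (m : ℝ) * (v : ℝ) - (k : ℝ)) := by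
      push_cast; field_simp
    rw [e, abs_mul, abs_of_pos hmR]
    calc (m : ℝ) * |(j : ℝ) / (m : ℝ) * (v : ℝ) - (k : ℝ)| < (m : ℝ) * (1 / ((n : ℝ) + 1)) :=
          mul_lt_mul_of_pos_left hk hmR
      _ ≤ 2 := by
          rw [mul_one_div, div_le_iff₀ hnR]; exact hm2R
  have h2 : |(j * v - k * m : ℤ)| < 2 := by exact_mod_cast h1
  rw [abs_lt] at h2
  obtain ⟨c, hc⟩ := hju
  have h3 : j * v - k * m = 0 ∨ j * v - k * m = 1 ∨ j * v - k * m = -1 := by omega
  rcases h3 with h3 | h3 | h3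
  · left
    exact ⟨u * k - v * c, by linear_combination (u : ℤ) * h3 - (v : ℤ) * hc⟩
  · right; left
    exact ⟨u * k - v * c, by linear_combination (u : ℤ) * h3 - (v : ℤ) * hc⟩
  · right; right
    exact ⟨u * k - v * c, by linear_combination (u : ℤ) * h3 - (v : ℤ) * hc⟩

/-- The times `1 / m` with `m ≤ n + 1`. -/
lemma key0 {n : ℕ} {V : Finset ℕ}
    (H : ∀ t : ℝ, ∃ v ∈ V, ∃ k : ℤ, |t * (v : ℝ) - (k : ℝ)| < 1 / ((n : ℝ) + 1))
    (m : ℕ) (hm : 0 < m) (hm2 : m ≤ n + 1) : ∃ v ∈ V, m ∣ v := by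
  obtain ⟨v, hv, k, hk⟩ := H (1 / (m : ℝ))
  refine ⟨v, hv, ?_⟩
  have hmR : (0 : ℝ) < (m : ℝ) := by exact_mod_cast hm
  have hnR : (0 : ℝ) < (n : ℝ) + 1 := by positivity
  have hm2R : (m : ℝ) ≤ (n : ℝ) + 1 := by exact_mod_cast hm2
  have h1 : |((v - k * m : ℤ) : ℝ)| < 1 := by
    have e : ((v - k * m : ℤ) : ℝ) = (m : ℝ) * (1 / (m : ℝ) * (v : ℝ) - (k : ℝ)) := by
      push_cast; field_simp
    rw [e, abs_mul, abs_of_pos hmR]
    calc (m : ℝ) * |1 / (m : ℝ) * (v : ℝ) - (k : ℝ)| < (m : ℝ) * (1 / ((n : ℝ) + 1)) :=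
          mul_lt_mul_of_pos_left hk hmR
      _ ≤ 1 := by
          rw [mul_one_div, div_le_iff₀ hnR, one_mul]; exact hm2R
  have h2 : |((v : ℤ) - k * m : ℤ)| < 1 := by exact_mod_cast h1
  rw [abs_lt] at h2
  have h3 : (v : ℤ) - k * m = 0 := by omega
  have h4 : (m : ℤ) ∣ (v : ℤ) := ⟨k, by linear_combination h3⟩
  exact_mod_cast h4

/-- An integer divisible by `m` and of absolute value less than `m` is zero. -/
lemma zero_of_dvd {m a : ℤ} (h : m ∣ a) (h1 : -m < a) (h2 : a < m) : a = 0 := by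
  apply Int.eq_zero_of_abs_lt_dvd h
  rw [abs_lt]
  exact ⟨h1, h2⟩

/-- **Lonely runner with a prime above the speeds.**  If `V` is a set of `n` positive integers all
smaller than a prime `p ≤ 2 n + 1`, then some real `t` has `‖t v‖ ≥ 1 / (n + 1)` for all `v ∈ V`. -/
theorem result (n p : ℕ) (V : Finset ℕ) (hp : p.Prime) (hpn : p ≤ 2 * n + 1)
    (hcard : V.card = n) (hV : ∀ v ∈ V, 0 < v ∧ v < p) :
    ∃ t : ℝ, ∀ v ∈ V, ∀ k : ℤ, (1 : ℝ) / ((n : ℝ) + 1) ≤ |t * (v : ℝ) - (k : ℝ)| := by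
  by_contra hcon
  have H : ∀ t : ℝ, ∃ v ∈ V, ∃ k : ℤ, |t * (v : ℝ) - (k : ℝ)| < 1 / ((n : ℝ) + 1) := by
    intro t
    by_contra h
    apply hcon
    refine ⟨t, fun v hv k => ?_⟩
    by_contra h'
    exact h ⟨v, hv, k, not_le.mp h'⟩
  -- `n + 2 ≤ p`
  have hnp : n + 2 ≤ p := by
    obtain ⟨v, hv, hd⟩ := key0 H (n + 1) (Nat.succ_pos n) le_rfl
    have := Nat.le_of_dvd (hV v hv).1 hd
    have := (hV v hv).2
    omega
  -- complementary pairs modulo `p`
  have hpair : ∀ x : ℕ, 0 < x → x < p → x ∈ V ∨ p - x ∈ V := by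
    intro x hx0 hxp
    have hcop : Nat.Coprime x p := (Nat.coprime_of_lt_prime hx0.ne' hxp hp).symm
    have hcop' : IsCoprime (x : ℤ) (p : ℤ) := Nat.isCoprime_iff_coprime.mpr hcop
    obtain ⟨a, b, hab⟩ := hcop'
    obtain ⟨v, hv, hd⟩ := key H p hp.pos (by omega) a (x : ℤ)
      ⟨-b, by linear_combination hab⟩
    obtain ⟨hv0, hvp⟩ := hV v hv
    rcases hd with hd | hd | hd
    · have := zero_of_dvd hd (by omega) (by omega)
      omega
    · have := zero_of_dvd hd (by omega) (by omega)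
      have hvx : v = x := by omega
      left; rwa [← hvx]
    · have h5 : (p : ℤ) ∣ (v : ℤ) + x - p := Dvd.dvd.sub hd (dvd_refl _)
      have := zero_of_dvd h5 (by omega) (by omega)
      have hvx : p - x = v := by omega
      right; rwa [hvx]
  -- the small elements
  have hsmall : ∀ i : ℕ, 0 < i → i < p → p + i ≤ 2 * n + 2 → i ∈ V := by
    intro i hi0 hip hin
    have hcop : Nat.Coprime i (p + i) := by
      rw [Nat.coprime_add_self_right]
      exact (Nat.coprime_of_lt_prime hi0.ne' hip hp).symm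
    have hcop' : IsCoprime (i : ℤ) ((p + i : ℕ) : ℤ) := Nat.isCoprime_iff_coprime.mpr hcop
    obtain ⟨a, b, hab⟩ := hcop'
    obtain ⟨v, hv, hd⟩ := key H (p + i) (by omega) (by omega) a (i : ℤ)
      ⟨-b, by linear_combination hab⟩
    obtain ⟨hv0, hvp⟩ := hV v hv
    rcases hd with hd | hd | hd
    · have := zero_of_dvd hd (by push_cast; omega) (by push_cast; omega)
      omega
    · have := zero_of_dvd hd (by push_cast; omega) (by push_cast; omega)
      have hvx : v = i := by omega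
      rwa [← hvx]
    · have := zero_of_dvd hd (by push_cast; omega) (by push_cast; omega)
      omega
  -- the counting argument
  have hlow : ∀ x : ℕ, 0 < x → x ≤ n + 1 → x ∉ V → 2 * n + 3 ≤ p + x := by
    intro x hx0 hxn hxV
    by_contra hlt
    exact hxV (hsmall x hx0 (by omega) (by omega))
  have hdouble : ∀ x : ℕ, 0 < x → x ≤ n + 1 → x ∉ V → p < x + (n + 2) → 2 * x ∈ V := by
    intro x hx0 hxn hxV hxp
    have h1 := hlow x hx0 hxn hxV
    obtain ⟨v, hv, ⟨k, hk⟩⟩ := key0 H x hx0 hxn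
    obtain ⟨hv0, hvp⟩ := hV v hv
    have hk3 : k < 3 := by
      by_contra hk3
      have : x * 3 ≤ x * k := Nat.mul_le_mul_left x (by omega)
      omega
    interval_cases k
    · omega
    · exact absurd (by simpa [hk] using hv) hxV
    · rw [mul_comm]; rwa [← hk]
  set W : Finset ℕ := (Finset.Icc 1 (n + 1)) \ V with hW
  set U : Finset ℕ := V \ (Finset.Icc 1 (n + 1)) with hU
  have hWU : W.card ≤ U.card := by
    apply Finset.card_le_card_of_injOn (fun x => if x + (n + 2) ≤ p then p - x else 2 * x)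
    · intro x hx
      have hx' : x ∈ W := hx
      rw [hW, Finset.mem_sdiff, Finset.mem_Icc] at hx'
      obtain ⟨⟨hx1, hx2⟩, hx3⟩ := hx'
      have h1 := hlow x hx1 hx2 hx3
      have goal : (if x + (n + 2) ≤ p then p - x else 2 * x) ∈ U := by
        rw [hU, Finset.mem_sdiff, Finset.mem_Icc]
        split_ifs with hc
        · refine ⟨?_, by omega⟩
          rcases hpair x hx1 (by omega) with h | h
          · exact absurd h hx3
          · exact h
        · refine ⟨hdouble x hx1 hx2 hx3 (by omega), by omega⟩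
      exact goal
    · intro x hx y hy hxy
      have hx' : x ∈ W := hx
      have hy' : y ∈ W := hy
      rw [hW, Finset.mem_sdiff, Finset.mem_Icc] at hx' hy'
      obtain ⟨⟨hx1, hx2⟩, hx3⟩ := hx'
      obtain ⟨⟨hy1, hy2⟩, hy3⟩ := hy'
      have h1 := hlow x hx1 hx2 hx3
      have h2 := hlow y hy1 hy2 hy3
      have hxy' : (if x + (n + 2) ≤ p then p - x else 2 * x)
          = (if y + (n + 2) ≤ p then p - y else 2 * y) := hxy
      split_ifs at hxy' <;> omega
  have hc1 : (V ∩ Finset.Icc 1 (n + 1)).card + U.card = V.card := by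
    rw [hU]; exact Finset.card_inter_add_card_sdiff _ _
  have hc2 : (Finset.Icc 1 (n + 1) ∩ V).card + W.card = (Finset.Icc 1 (n + 1)).card := by
    rw [hW]; exact Finset.card_inter_add_card_sdiff _ _
  rw [Finset.inter_comm] at hc2
  rw [Nat.card_Icc] at hc2
  omega

end Pool.Agent.Results.MP_03e4a4_nt.PrimeBound
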